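import Mathlib
import Pool.Agent.Helper958.PCP.General2
import Pool.Agent.Helper958.PCP.Suz

/-!
# `T(P × P)` is at most about `|P| ^ (1/2)` for every non-abelian `p`-group
-/

set_option autoImplicit false

namespace Pool.Agent.Results.MP_47f3f4_co.GeneralBound

open Pool.Agent.Helper958.PCP

/-- Upper bound for all non-abelian `P` of order `p ^ n`, and a family of non-abelian groups of
order `p ^ (2m)` showing that the exponent `n/2` is best possible. -/
theorem result (p : ℕ) [Fact p.Prime] :
    (∀ (n : ℕ) (P : Type) [Group P] [Finite P], Nat.card P = p ^ n →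
      (∃ x y : P, x * y ≠ y * x) → ∀ (r : ℕ) (U : Fin r → Subgroup (P × P)),
      IsPCP (P × P) r U → r ≤ p ^ (n / 2) + 1 + 4 * ∑ i ∈ Finset.range (n / 2), p ^ i) ∧
    (∀ m : ℕ, Odd m → 3 ≤ m → ∃ (P : Type) (_ : Group P) (_ : Finite P),
      Nat.card P = p ^ (2 * m) ∧ (∃ x y : P, x * y ≠ y * x) ∧
      ∃ (r : ℕ) (U : Fin r → Subgroup (P × P)), IsPCP (P × P) r U ∧ p ^ m < 2 * r) := by
  refine ⟨?_, ?_⟩
  · intro n P _ _ hcard hna r U hU
    exact general_upper p n hcard hna hU
  · intro m hm hm3
    have hF : Nat.card (GaloisField p m) = p ^ m := GaloisField.card p m (by omega)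
    refine ⟨Suz p (GaloisField p m), inferInstance, inferInstance, ?_,
      Suz.noncomm hF (by omega), ?_⟩
    · rw [Suz.card, hF, ← pow_add]
      congr 1
      omega
    · obtain ⟨U, hU⟩ := Suz.lower hF hm
      exact ⟨_, U, hU, by omega⟩

end Pool.Agent.Results.MP_47f3f4_co.GeneralBound
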