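import Mathlib
import Pool.Agent.Helper958.PCP.HeisUp
import Pool.Agent.Helper958.PCP.HeisLow

/-!
# `T(P × P) = q + 1` for the Heisenberg groups `P` of order `q ^ (2n+1)`
-/

set_option autoImplicit false

namespace Pool.Agent.Results.MP_47f3f4_co.Heisenberg

open Pool.Agent.Helper958.PCP

/-- For every finite field `F` with `q` elements and every `n ≥ 1` the Heisenberg group `P` of
dimension `2n+1` over `F` has order `q ^ (2n+1)`, is not commutative, and the largest degree of a
PCP in `P × P` is `q + 1`. -/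
theorem result (F : Type) [Field F] [Finite F] (n : ℕ) (hn : 1 ≤ n) :
    Nat.card (Heis n F) = Nat.card F ^ (2 * n + 1) ∧
    (∃ x y : Heis n F, x * y ≠ y * x) ∧
    HasT (Heis n F × Heis n F) (Nat.card F + 1) := by
  refine ⟨Heis.card, ?_, lower, ?_⟩
  · refine ⟨⟨Pi.single ⟨0, hn⟩ 1, 0, 0⟩, ⟨0, Pi.single ⟨0, hn⟩ 1, 0⟩, fun h => ?_⟩
    have h2 := congrArg Heis.c h
    simp [Heis.mul_c] at h2
  · rintro r ⟨U, hU⟩
    exact upper r U hU

end Pool.Agent.Results.MP_47f3f4_co.Heisenberg
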