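import Mathlib
import Pool.Agent.Helper958.PCP.Suz
import Pool.Agent.Helper958.PCP.SuzUp

/-!
# `T(P × P) = q + 1` for the Suzuki 2-groups `P` of order `q ^ 2`
-/

set_option autoImplicit false

namespace Pool.Agent.Results.MP_47f3f4_co.Suzuki

open Pool.Agent.Helper958.PCP

/-- For odd `m ≥ 3`, `q = 2 ^ m` and every field `F` with `q` elements, the Suzuki 2-group
`P = {(a, c) : a, c ∈ F}`, `(a, c)(a', c') = (a + a', c + c' + a a' ^ 2)`, has order `q ^ 2`, is
not commutative, and `T(P × P) = q + 1`. -/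
theorem result (m : ℕ) (hm : Odd m) (hm3 : 3 ≤ m) (F : Type) [Field F] [CharP F 2] [Finite F]
    (hF : Nat.card F = 2 ^ m) :
    Nat.card (Suz 2 F) = 2 ^ (2 * m) ∧
    (∃ x y : Suz 2 F, x * y ≠ y * x) ∧
    HasT (Suz 2 F × Suz 2 F) (2 ^ m + 1) := by
  refine ⟨?_, Suz.noncomm hF (by omega), Suz.lower2 hF hm, ?_⟩
  · rw [Suz.card, hF, ← pow_add]
    congr 1
    omega
  · rintro r ⟨U, hU⟩
    exact Suz.upper2 hF hm r U hU

end Pool.Agent.Results.MP_47f3f4_co.Suzuki
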